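import Mathlib

/-!
# Sparse factors: the block lemma, simultaneous approximation, a free threshold, the labels
-/

set_option autoImplicit false

namespace Pool.Agent.N449.SF

open Finset

theorem block_le {ι : Type*} (I : Finset ι) (x : ι → ℕ) (c : ι → ℤ) (ℓ : ι → ℤ)
    (hsum : ∑ a ∈ I, c a * 2 ^ x a = 0)
    (hgap : ∀ a ∈ I, ∀ b ∈ I, ℓ a < ℓ b → (∑ a ∈ I, |c a|) * 2 ^ x a < 2 ^ x b)
    (L : ℤ) : ∑ a ∈ I with ℓ a ≤ L, c a * 2 ^ x a = 0 := by
  classical
  set U := I.filter (fun a => ℓ a ≤ L) with hU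
  set V := I.filter (fun a => ¬ ℓ a ≤ L) with hV
  have hUV : ∑ a ∈ U, c a * 2 ^ x a + ∑ a ∈ V, c a * 2 ^ x a = 0 := by
    rw [hU, hV, Finset.sum_filter_add_sum_filter_not, hsum]
  rcases U.eq_empty_or_nonempty with hUe | hUn
  · rw [hUe]; simp
  rcases V.eq_empty_or_nonempty with hVe | hVn
  · rw [hVe] at hUV; simpa using hUV
  obtain ⟨a, haU, ha⟩ := U.exists_max_image x hUn
  obtain ⟨b, hbV, hb⟩ := V.exists_min_image x hVn
  have haI : a ∈ I := (Finset.mem_filter.1 haU).1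
  have hbI : b ∈ I := (Finset.mem_filter.1 hbV).1
  have hab : ℓ a < ℓ b := lt_of_le_of_lt (Finset.mem_filter.1 haU).2
    (not_le.1 (Finset.mem_filter.1 hbV).2)
  have hg := hgap a haI b hbI hab
  have hdV : (2 : ℤ) ^ x b ∣ ∑ a ∈ V, c a * 2 ^ x a := by
    refine Finset.dvd_sum fun i hi => ?_
    exact Dvd.dvd.mul_left (pow_dvd_pow 2 (hb i hi)) _
  have hdU : (2 : ℤ) ^ x b ∣ ∑ a ∈ U, c a * 2 ^ x a := by
    have : ∑ a ∈ U, c a * 2 ^ x a = -∑ a ∈ V, c a * 2 ^ x a := by linarith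
    rw [this]
    exact hdV.neg_right
  have hle : |∑ a ∈ U, c a * 2 ^ x a| ≤ (∑ a ∈ I, |c a|) * 2 ^ x a := by
    calc |∑ a ∈ U, c a * 2 ^ x a| ≤ ∑ i ∈ U, |c i * 2 ^ x i| := Finset.abs_sum_le_sum_abs _ _
      _ ≤ ∑ i ∈ U, |c i| * 2 ^ x a := by
          refine Finset.sum_le_sum fun i hi => ?_
          rw [abs_mul, abs_of_nonneg (by positivity : (0 : ℤ) ≤ 2 ^ x i)]
          exact mul_le_mul_of_nonneg_left (pow_le_pow_right₀ (by norm_num) (ha i hi))
            (abs_nonneg _)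
      _ = (∑ i ∈ U, |c i|) * 2 ^ x a := by rw [Finset.sum_mul]
      _ ≤ (∑ i ∈ I, |c i|) * 2 ^ x a := by
          refine mul_le_mul_of_nonneg_right ?_ (by positivity)
          exact Finset.sum_le_sum_of_subset_of_nonneg (Finset.filter_subset _ _)
            (fun _ _ _ => abs_nonneg _)
  exact Int.eq_zero_of_abs_lt_dvd hdU (lt_of_le_of_lt hle hg)

/-- The block lemma. -/
theorem block {ι : Type*} (I : Finset ι) (x : ι → ℕ) (c : ι → ℤ) (ℓ : ι → ℤ)
    (hsum : ∑ a ∈ I, c a * 2 ^ x a = 0)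
    (hgap : ∀ a ∈ I, ∀ b ∈ I, ℓ a < ℓ b → (∑ a ∈ I, |c a|) * 2 ^ x a < 2 ^ x b)
    (L : ℤ) : ∑ a ∈ I with ℓ a = L, c a * 2 ^ x a = 0 := by
  classical
  have h1 := block_le I x c ℓ hsum hgap L
  have h2 := block_le I x c ℓ hsum hgap (L - 1)
  have h3 : ∑ a ∈ I with ℓ a ≤ L, c a * 2 ^ x a
      = ∑ a ∈ I with ℓ a ≤ L - 1, c a * 2 ^ x a + ∑ a ∈ I with ℓ a = L, c a * 2 ^ x a := by
    rw [← Finset.sum_union]
    · congr 1
      ext a
      simp only [Finset.mem_filter, Finset.mem_union]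
      constructor
      · rintro ⟨h, h'⟩
        rcases lt_or_eq_of_le h' with h'' | h''
        · left; exact ⟨h, by omega⟩
        · right; exact ⟨h, h''⟩
      · rintro (⟨h, h'⟩ | ⟨h, h'⟩)
        · exact ⟨h, by omega⟩
        · exact ⟨h, by omega⟩
    · rw [Finset.disjoint_left]
      intro a ha ha'
      have := (Finset.mem_filter.1 ha).2
      have := (Finset.mem_filter.1 ha').2
      omega
  rw [h1, h2] at h3
  linarith

/-- Simultaneous approximation (Dirichlet). -/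
theorem dirichlet (n H : ℕ) (hn : 0 < n) (hH : 0 < H) (S : Finset ℕ) (h0 : 0 ∈ S) :
    ∃ q : ℕ, 1 ≤ q ∧ q ≤ H ^ (S.card - 1) ∧
      ∀ i ∈ S, ∃ α : ℤ, (H : ℤ) * |(q : ℤ) * i - α * n| < n := by
  classical
  set S' := S.erase 0 with hS'
  have hcard : S'.card = S.card - 1 := Finset.card_erase_of_mem h0
  -- the boxes
  let F : ℕ → (S' → Fin H) := fun q i => ⟨(H * ((q * (i : ℕ)) % n)) / n, by
    rw [Nat.div_lt_iff_lt_mul hn]
    exact Nat.mul_lt_mul_of_pos_left (Nat.mod_lt _ hn) hH⟩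
  have hpig : ∃ a ∈ Finset.range (H ^ S'.card + 1), ∃ b ∈ Finset.range (H ^ S'.card + 1),
      a ≠ b ∧ F a = F b := by
    refine Finset.exists_ne_map_eq_of_card_lt_of_maps_to (t := Finset.univ) ?_ (by simp)
    simp
  obtain ⟨a, ha, b, hb, hab, hF⟩ := hpig
  wlog hlt : a < b generalizing a b
  · exact this b hb a ha hab.symm hF.symm (by omega)
  refine ⟨b - a, by omega, ?_, ?_⟩
  · rw [← hcard]
    have := Finset.mem_range.1 hb
    omega
  intro i hi
  by_cases hi0 : i = 0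
  · subst hi0
    refine ⟨0, ?_⟩
    simpa using hn
  have hiS : i ∈ S' := Finset.mem_erase.2 ⟨hi0, hi⟩
  have h1 := congrFun hF ⟨i, hiS⟩
  have h2 : (H * ((a * i) % n)) / n = (H * ((b * i) % n)) / n := by
    simpa [F] using congrArg Fin.val h1
  refine ⟨((b * i / n : ℕ) : ℤ) - ((a * i / n : ℕ) : ℤ), ?_⟩
  have ea := Nat.div_add_mod (a * i) n
  have eb := Nat.div_add_mod (b * i) n
  have hca : ((b - a : ℕ) : ℤ) = (b : ℤ) - a := by push_cast [hlt.le]; ring
  have key : ((b - a : ℕ) : ℤ) * i - (((b * i / n : ℕ) : ℤ) - ((a * i / n : ℕ) : ℤ)) * n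
      = ((b * i % n : ℕ) : ℤ) - ((a * i % n : ℕ) : ℤ) := by
    rw [hca]
    have ea' : (n : ℤ) * ((a * i / n : ℕ) : ℤ) + ((a * i % n : ℕ) : ℤ) = (a : ℤ) * i := by
      exact_mod_cast ea
    have eb' : (n : ℤ) * ((b * i / n : ℕ) : ℤ) + ((b * i % n : ℕ) : ℤ) = (b : ℤ) * i := by
      exact_mod_cast eb
    linear_combination ea' - eb'
  rw [key]
  set ra := a * i % n
  set rb := b * i % n
  -- same box
  have ka1 := Nat.div_mul_le_self (H * ra) n
  have ka2 := Nat.lt_div_mul_add (a := H * ra) hn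
  have kb1 := Nat.div_mul_le_self (H * rb) n
  have kb2 := Nat.lt_div_mul_add (a := H * rb) hn
  rw [← h2] at kb1 kb2
  have e1 : (H : ℤ) * |((rb : ℕ) : ℤ) - ((ra : ℕ) : ℤ)| = |((H * rb : ℕ) : ℤ) - ((H * ra : ℕ) : ℤ)| := by
    have : ((H * rb : ℕ) : ℤ) - ((H * ra : ℕ) : ℤ)
        = (H : ℤ) * (((rb : ℕ) : ℤ) - ((ra : ℕ) : ℤ)) := by push_cast; ring
    rw [this, abs_mul, abs_of_nonneg (by positivity : (0 : ℤ) ≤ (H : ℤ))]
  rw [e1, abs_lt]
  constructor <;> omega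

/-- A free threshold. -/
theorem threshold (n t : ℕ) (T : Finset ℕ) (hT : T.card = t) (h0 : 0 ∈ T) (y : ℕ → ℤ)
    (hy0 : y 0 = 0) :
    ∃ k : ℕ, k < t ∧ ∀ j ∈ T, ¬ ((k : ℤ) * n < 2 * t * y j ∧ 2 * t * y j ≤ (k + 1) * n) := by
  classical
  by_contra hcon
  push Not at hcon
  choose f hfT hf1 hf2 using hcon
  -- injectivity into T.erase 0
  have ht : 0 < t := by rw [← hT]; exact Finset.card_pos.2 ⟨0, h0⟩
  have hlt : (T.erase 0).card < (Finset.univ : Finset (Fin t)).card := by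
    rw [Finset.card_erase_of_mem h0, hT]
    simp
    omega
  obtain ⟨a, -, b, -, hab, hfab⟩ := Finset.exists_ne_map_eq_of_card_lt_of_maps_to
    (s := (Finset.univ : Finset (Fin t))) (t := T.erase 0) (f := fun k : Fin t => f k k.2) hlt
    (by
      intro k _
      refine Finset.mem_erase.2 ⟨?_, hfT k k.2⟩
      intro h
      have := hf1 k k.2
      simp only at h
      rw [h, hy0] at this
      have h3 : (0 : ℤ) ≤ (k : ℕ) * (n : ℤ) := by positivity
      simp at this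
      omega)
  have h1a := hf1 a a.2
  have h2a := hf2 a a.2
  have h1b := hf1 b b.2
  have h2b := hf2 b b.2
  rw [hfab] at h1a h2a
  have hne : (a : ℕ) ≠ (b : ℕ) := fun h => hab (Fin.ext h)
  have hn : (0 : ℤ) ≤ n := by positivity
  rcases lt_or_gt_of_ne hne with h | h
  · have : ((a : ℕ) : ℤ) + 1 ≤ (b : ℕ) := by exact_mod_cast h
    have : (((a : ℕ) : ℤ) + 1) * n ≤ (b : ℕ) * n := mul_le_mul_of_nonneg_right this hn
    linarith
  · have : ((b : ℕ) : ℤ) + 1 ≤ (a : ℕ) := by exact_mod_cast h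
    have : (((b : ℕ) : ℤ) + 1) * n ≤ (a : ℕ) * n := mul_le_mul_of_nonneg_right this hn
    linarith

/-- the label of a value -/
def lab (C P V : ℤ) : ℤ := (V - C) / P + (V + C) / P

/-- far from the cuts -/
def Far (n C P V : ℤ) : Prop :=
  n ≤ (V - C) % P ∧ (V - C) % P ≤ P - n ∧ n ≤ (V + C) % P ∧ (V + C) % P ≤ P - n

theorem divmod (P γ r : ℤ) (h0 : 0 ≤ r) (h1 : r < P) :
    (γ * P + r) / P = γ ∧ (γ * P + r) % P = r := by
  have hP : P ≠ 0 := by omega
  constructor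
  · rw [add_comm, Int.add_mul_ediv_right _ _ hP, Int.ediv_eq_zero_of_lt h0 h1, zero_add]
  · rw [add_comm, Int.add_mul_emod_self_right, Int.emod_eq_of_lt h0 h1]

theorem near (n C P γ w : ℤ) (hn : 0 < n) (hC : 2 * n ≤ C) (hP : 2 * C + 4 * n ≤ P)
    (hw : |w| < C - n) : lab C P (γ * P + w) = 2 * γ - 1 ∧ Far n C P (γ * P + w) := by
  obtain ⟨h1, h2⟩ := abs_lt.1 hw
  have e1 : γ * P + w - C = (γ - 1) * P + (P + w - C) := by ring
  have e2 : γ * P + w + C = γ * P + (w + C) := by ring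
  obtain ⟨a1, a2⟩ := divmod P (γ - 1) (P + w - C) (by linarith) (by linarith)
  obtain ⟨b1, b2⟩ := divmod P γ (w + C) (by linarith) (by linarith)
  unfold lab Far
  rw [e1, e2, a1, a2, b1, b2]
  refine ⟨by ring, by linarith, by linarith, by linarith, by linarith⟩

theorem away (n C P γ w : ℤ) (hn : 0 < n) (hC : 2 * n ≤ C) (hP : 2 * C + 4 * n ≤ P)
    (hw : C + n < |w|) (hw' : 2 * |w| < P + 2 * n) :
    (∃ γ' : ℤ, lab C P (γ * P + w) = 2 * γ') ∧ Far n C P (γ * P + w) := by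
  rcases le_or_gt 0 w with h | h
  · rw [abs_of_nonneg h] at hw hw'
    have e1 : γ * P + w - C = γ * P + (w - C) := by ring
    have e2 : γ * P + w + C = γ * P + (w + C) := by ring
    obtain ⟨a1, a2⟩ := divmod P γ (w - C) (by linarith) (by linarith)
    obtain ⟨b1, b2⟩ := divmod P γ (w + C) (by linarith) (by linarith)
    unfold lab Far
    rw [e1, e2, a1, a2, b1, b2]
    refine ⟨⟨γ, by ring⟩, by linarith, by linarith, by linarith, by linarith⟩
  · rw [abs_of_neg h] at hw hw'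
    have e1 : γ * P + w - C = (γ - 1) * P + (P + w - C) := by ring
    have e2 : γ * P + w + C = (γ - 1) * P + (P + w + C) := by ring
    obtain ⟨a1, a2⟩ := divmod P (γ - 1) (P + w - C) (by linarith) (by linarith)
    obtain ⟨b1, b2⟩ := divmod P (γ - 1) (P + w + C) (by linarith) (by linarith)
    unfold lab Far
    rw [e1, e2, a1, a2, b1, b2]
    refine ⟨⟨γ - 1, by ring⟩, by linarith, by linarith, by linarith, by linarith⟩

theorem gap_aux (n P c V W : ℤ) (hP : 0 < P) (hV2 : (V - c) % P ≤ P - n)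
    (hW1 : n ≤ (W - c) % P) (h : (V - c) / P < (W - c) / P) : 2 * n ≤ W - V := by
  have e1 := Int.emod_add_mul_ediv (V - c) P
  have e2 := Int.emod_add_mul_ediv (W - c) P
  have h1 : P * ((V - c) / P + 1) ≤ P * ((W - c) / P) :=
    mul_le_mul_of_nonneg_left (by omega) hP.le
  nlinarith

theorem gap (n C P V W : ℤ) (hP : 0 < P) (hV : Far n C P V) (hW : Far n C P W)
    (h : lab C P V < lab C P W) : 2 * n ≤ W - V := by
  unfold lab at h
  obtain ⟨v1, v2, v3, v4⟩ := hV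
  obtain ⟨w1, w2, w3, w4⟩ := hW
  by_cases h1 : (V - C) / P < (W - C) / P
  · exact gap_aux n P C V W hP v2 w1 h1
  · have h2 : (V + C) / P < (W + C) / P := by omega
    have := gap_aux n P (-C) V W hP (by simpa using v4) (by simpa using w3) (by simpa using h2)
    exact this

end Pool.Agent.N449.SF
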