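import Pool.Agent.N682.Quarter

/-!
# Ordinary binary digits of the factors of a Fermat number
-/

set_option autoImplicit false
set_option maxHeartbeats 4000000

namespace Pool.Agent.N449.SF

open Finset

/-- A sum of powers of two equal to `2 ^ n` with a term `2 ^ x₀` has at least `n - x₀ + 1` terms. -/
theorem card_terms {ι : Type*} (I : Finset ι) (x : ι → ℕ) (n : ℕ)
    (h : ∑ i ∈ I, 2 ^ x i = 2 ^ n) (i₀ : ι) (hi₀ : i₀ ∈ I) : n + 1 ≤ I.card + x i₀ := by
  classical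
  have hle : ∀ i ∈ I, x i ≤ n := by
    intro i hi
    have h1 : 2 ^ x i ≤ ∑ i ∈ I, 2 ^ x i :=
      Finset.single_le_sum (f := fun i => 2 ^ x i) (fun _ _ => Nat.zero_le _) hi
    rw [h] at h1
    exact (Nat.pow_le_pow_iff_right (by norm_num)).1 h1
  -- lower bound for each level
  have hlow : ∀ j ∈ Finset.Ioc (x i₀) n, (1 : ℝ) ≤ ∑ i ∈ I, (if x i < j then (2 : ℝ) ^ x i / 2 ^ j else 0) := by
    intro j hj
    rw [Finset.mem_Ioc] at hj
    have h1 : ∑ i ∈ I with x i < j, 2 ^ x i + ∑ i ∈ I with ¬ x i < j, 2 ^ x i = 2 ^ n := by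
      rw [Finset.sum_filter_add_sum_filter_not, h]
    have h2 : 2 ^ j ∣ ∑ i ∈ I with ¬ x i < j, 2 ^ x i := by
      refine Finset.dvd_sum fun i hi => ?_
      exact pow_dvd_pow 2 (not_lt.1 (Finset.mem_filter.1 hi).2)
    have h3 : 2 ^ j ∣ ∑ i ∈ I with x i < j, 2 ^ x i := by
      rw [Nat.dvd_add_left h2 |>.symm, h1]
      exact pow_dvd_pow 2 hj.2
    have h4 : 0 < ∑ i ∈ I with x i < j, 2 ^ x i := by
      apply Finset.sum_pos
      · intro i _; positivity
      · exact ⟨i₀, Finset.mem_filter.2 ⟨hi₀, hj.1⟩⟩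
    have h5 : 2 ^ j ≤ ∑ i ∈ I with x i < j, 2 ^ x i := Nat.le_of_dvd h4 h3
    have h6 : (2 : ℝ) ^ j ≤ ∑ i ∈ I with x i < j, (2 : ℝ) ^ x i := by exact_mod_cast h5
    rw [← Finset.sum_filter, ← Finset.sum_div, le_div_iff₀ (by positivity), one_mul]
    exact h6
  have hup : ∀ i ∈ I, ∑ j ∈ Finset.Ioc (x i₀) n, (if x i < j then (2 : ℝ) ^ x i / 2 ^ j else 0) < 1 := by
    intro i hi
    have h1 : ∑ j ∈ Finset.Ioc (x i₀) n, (if x i < j then (2 : ℝ) ^ x i / 2 ^ j else 0)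
        ≤ ∑ j ∈ Finset.Ioc (x i) n, (2 : ℝ) ^ x i / 2 ^ j := by
      rw [← Finset.sum_filter]
      apply Finset.sum_le_sum_of_subset_of_nonneg
      · intro j hj
        rw [Finset.mem_filter, Finset.mem_Ioc] at hj
        exact Finset.mem_Ioc.2 ⟨hj.2, hj.1.2⟩
      · intro j _ _; positivity
    have h2 : ∀ k : ℕ, ∑ j ∈ Finset.Ioc (x i) (x i + k), (2 : ℝ) ^ x i / 2 ^ j = 1 - 1 / 2 ^ k := by
      intro k
      induction k with
      | zero => simp
      | succ k ih =>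
        rw [← add_assoc, Finset.sum_Ioc_succ_top (by omega), ih]
        rw [pow_succ, pow_add, pow_succ]
        field_simp
        ring
    obtain ⟨k, hk⟩ := Nat.exists_eq_add_of_le (hle i hi)
    rw [hk] at h1
    have h3 := h2 k
    rw [hk]
    have h4 : (0 : ℝ) < 1 / 2 ^ k := by positivity
    linarith
  have hsum : ((Finset.Ioc (x i₀) n).card : ℝ) < I.card := by
    calc ((Finset.Ioc (x i₀) n).card : ℝ) = ∑ j ∈ Finset.Ioc (x i₀) n, (1 : ℝ) := by simp
      _ ≤ ∑ j ∈ Finset.Ioc (x i₀) n, ∑ i ∈ I, (if x i < j then (2 : ℝ) ^ x i / 2 ^ j else 0) :=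
          Finset.sum_le_sum hlow
      _ = ∑ i ∈ I, ∑ j ∈ Finset.Ioc (x i₀) n, (if x i < j then (2 : ℝ) ^ x i / 2 ^ j else 0) :=
          Finset.sum_comm
      _ < ∑ i ∈ I, (1 : ℝ) := Finset.sum_lt_sum_of_nonempty ⟨i₀, hi₀⟩ hup
      _ = I.card := by simp
  rw [Nat.card_Ioc] at hsum
  have h7 : n - x i₀ < I.card := by exact_mod_cast hsum
  have := hle i₀ hi₀
  omega

/-- Binary expansion as a set of exponents. -/
theorem exists_set (d : ℕ) : ∃ A : Finset ℕ, ∑ a ∈ A, 2 ^ a = d ∧ A.card = (Nat.digits 2 d).sum := by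
  induction d using Nat.strong_induction_on with
  | _ d ih =>
    rcases Nat.eq_zero_or_pos d with rfl | hd
    · exact ⟨∅, by simp⟩
    obtain ⟨A, hA, hA'⟩ := ih (d / 2) (by omega)
    have hdig : Nat.digits 2 d = (d % 2) :: Nat.digits 2 (d / 2) :=
      Nat.digits_def' (by norm_num) hd
    have hinj : Function.Injective Nat.succ := Nat.succ_injective
    have hs : ∑ a ∈ A.image Nat.succ, 2 ^ a = 2 * (d / 2) := by
      rw [Finset.sum_image (fun _ _ _ _ h => hinj h), ← hA, Finset.mul_sum]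
      refine Finset.sum_congr rfl fun a _ => ?_
      rw [pow_succ]; ring
    have hc : (A.image Nat.succ).card = (Nat.digits 2 (d / 2)).sum := by
      rw [Finset.card_image_of_injective _ hinj, hA']
    rcases Nat.mod_two_eq_zero_or_one d with h | h
    · refine ⟨A.image Nat.succ, ?_, ?_⟩
      · rw [hs]; omega
      · rw [hc, hdig, h]; simp
    · have h0 : 0 ∉ A.image Nat.succ := by simp
      refine ⟨insert 0 (A.image Nat.succ), ?_, ?_⟩
      · rw [Finset.sum_insert h0, hs]; simp; omega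
      · rw [Finset.card_insert_of_notMem h0, hc, hdig, h]; simp; omega

theorem zero_mem (d : ℕ) (hd : ¬ 2 ∣ d) (A : Finset ℕ) (hA : ∑ a ∈ A, 2 ^ a = d) : 0 ∈ A := by
  by_contra h0
  apply hd
  rw [← hA]
  refine Finset.dvd_sum fun a ha => ?_
  exact dvd_pow_self 2 (fun h => h0 (h ▸ ha))

theorem digits_bound (m : ℕ) (hm : 2 ≤ m) (d e : ℕ) (h : d * e = 2 ^ 2 ^ m + 1) (hd : 1 < d)
    (he : 1 < e) :
    3 * 2 ^ (m - 2) + 3 ≤ (Nat.digits 2 d).sum * (Nat.digits 2 e).sum := by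
  classical
  obtain ⟨A, hA, hA'⟩ := exists_set d
  obtain ⟨B, hB, hB'⟩ := exists_set e
  have hodd : ¬ 2 ∣ 2 ^ 2 ^ m + 1 := by
    have : 2 ∣ 2 ^ 2 ^ m := dvd_pow_self 2 (by positivity)
    omega
  have hA0 : 0 ∈ A := zero_mem d (fun h2 => hodd (h ▸ Dvd.dvd.mul_right h2 e)) A hA
  have hB0 : 0 ∈ B := zero_mem e (fun h2 => hodd (h ▸ Dvd.dvd.mul_left h2 d)) B hB
  -- a small exponent in `A`
  have hdF : d ≠ 2 ^ 2 ^ m + 1 := by
    intro h1
    rw [h1] at h
    have : e = 1 := by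
      have h2 : (2 ^ 2 ^ m + 1) * e = (2 ^ 2 ^ m + 1) * 1 := by rw [h]; ring
      exact Nat.eq_of_mul_eq_mul_left (by positivity) h2
    omega
  have hnd : ¬ 2 ^ (2 ^ (m - 2)) ∣ d - 1 := by
    intro h1
    rcases Pool.Agent.N682.Quarter.divisor m hm d ⟨e, h.symm⟩ h1 with h2 | h2
    · omega
    · exact hdF h2
  have hsm : ∃ a ∈ A.erase 0, a < 2 ^ (m - 2) := by
    by_contra hcon
    push Not at hcon
    apply hnd
    have h1 : d - 1 = ∑ a ∈ A.erase 0, 2 ^ a := by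
      rw [← hA, ← Finset.add_sum_erase A _ hA0]
      simp
    rw [h1]
    exact Finset.dvd_sum fun a ha => pow_dvd_pow 2 (hcon a ha)
  obtain ⟨a, haA, ha⟩ := hsm
  -- the product
  have hprod : ∑ p ∈ A ×ˢ B, 2 ^ (p.1 + p.2) = 2 ^ 2 ^ m + 1 := by
    rw [← h, ← hA, ← hB, Finset.sum_mul_sum, Finset.sum_product]
    refine Finset.sum_congr rfl fun i _ => Finset.sum_congr rfl fun j _ => ?_
    rw [pow_add]
  have h00 : (0, 0) ∈ A ×ˢ B := Finset.mem_product.2 ⟨hA0, hB0⟩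
  have hrest : ∑ p ∈ (A ×ˢ B).erase (0, 0), 2 ^ (p.1 + p.2) = 2 ^ 2 ^ m := by
    have := Finset.add_sum_erase (A ×ˢ B) (fun p => 2 ^ (p.1 + p.2)) h00
    rw [hprod] at this
    simp at this
    omega
  have ha0 : a ≠ 0 := (Finset.mem_erase.1 haA).1
  have hmem : (a, 0) ∈ (A ×ˢ B).erase (0, 0) := by
    rw [Finset.mem_erase]
    exact ⟨fun h => ha0 (by simpa using h), Finset.mem_product.2 ⟨(Finset.mem_erase.1 haA).2, hB0⟩⟩
  have hfin := card_terms ((A ×ˢ B).erase (0, 0)) (fun p => p.1 + p.2) (2 ^ m) hrest (a, 0) hmem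
  rw [Finset.card_erase_of_mem h00, Finset.card_product, hA', hB'] at hfin
  have hpos : 0 < (Nat.digits 2 d).sum * (Nat.digits 2 e).sum := by
    rw [← hA', ← hB']
    exact Nat.mul_pos (Finset.card_pos.2 ⟨0, hA0⟩) (Finset.card_pos.2 ⟨0, hB0⟩)
  have hpow : 2 ^ m = 4 * 2 ^ (m - 2) := by
    obtain ⟨k, rfl⟩ := Nat.exists_eq_add_of_le hm
    rw [show 2 + k - 2 = k by omega, pow_add]
    norm_num
  simp only [Nat.add_zero] at hfin
  omega

end Pool.Agent.N449.SF
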