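import Mathlib

/-!
# Irreducibility of `2 ^ (2 ^ m) X ^ q + 1` for `1 ≤ q < 2 ^ m`
-/

set_option autoImplicit false

namespace Pool.Agent.N449.SF

open Polynomial IntermediateField

theorem irr_two_pow (j : ℕ) (c : ℚ) (hc : c ≠ 0) :
    Irreducible (X ^ (2 ^ j) - C (-(c ^ (2 ^ j))) : ℚ[X]) := by
  let _ : Invertible c := invertibleOfNonzero hc
  have h1 : Irreducible (cyclotomic (2 ^ (j + 1)) ℚ) :=
    cyclotomic.irreducible_rat (by positivity)
  rw [cyclotomic_prime_pow_eq_geom_sum Nat.prime_two] at h1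
  have h2 : (∑ i ∈ Finset.range 2, (X ^ 2 ^ j) ^ i : ℚ[X]) = X ^ 2 ^ j + 1 := by
    simp [Finset.sum_range_succ, add_comm]
  rw [h2] at h1
  have h3 : (algEquivCMulXAddC c 0) (X ^ (2 ^ j) - C (-(c ^ (2 ^ j))) : ℚ[X])
      = C (c ^ (2 ^ j)) * (X ^ 2 ^ j + 1) := by
    rw [algEquivCMulXAddC_apply]
    simp
    ring
  have h4 : Irreducible ((algEquivCMulXAddC c 0) (X ^ (2 ^ j) - C (-(c ^ (2 ^ j))) : ℚ[X])) := by
    rw [h3]
    have hu : IsUnit (C (c ^ (2 ^ j)) : ℚ[X]) := by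
      rw [isUnit_C]
      exact (isUnit_iff_ne_zero).2 (pow_ne_zero _ hc)
    exact (irreducible_isUnit_mul hu).2 h1
  exact (MulEquiv.irreducible_iff (algEquivCMulXAddC c 0)).1 h4

theorem no_pth_root (m p : ℕ) (hp : p.Prime) (hp2 : p ≠ 2) (b : ℚ)
    (h : b ^ p = (1 / 2 : ℚ) ^ (2 ^ m) ∨ b ^ p = -(1 / 2 : ℚ) ^ (2 ^ m)) : False := by
  have : Fact (Nat.Prime 2) := ⟨Nat.prime_two⟩
  have hb : b ≠ 0 := by
    rintro rfl
    rw [zero_pow hp.ne_zero] at h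
    have : (0 : ℚ) < (1 / 2 : ℚ) ^ (2 ^ m) := by positivity
    rcases h with h | h <;> linarith
  have h1 : padicValRat 2 (b ^ p) = -(2 ^ m : ℕ) := by
    have e : padicValRat 2 ((1 / 2 : ℚ) ^ (2 ^ m)) = -(2 ^ m : ℕ) := by
      rw [padicValRat.pow]
      have : padicValRat 2 (1 / 2 : ℚ) = -1 := by
        rw [padicValRat.div (by norm_num) (by norm_num), padicValRat.one]
        have : padicValRat 2 (2 : ℚ) = 1 := by
          have := padicValRat.self (p := 2) (by norm_num)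
          simpa using this
        rw [this]; norm_num
      rw [this]; push_cast; ring
    rcases h with h | h
    · rw [h, e]
    · rw [h, padicValRat.neg, e]
  rw [padicValRat.pow] at h1
  have h2 : (p : ℤ) ∣ ((2 ^ m : ℕ) : ℤ) := by
    refine ⟨-padicValRat 2 b, ?_⟩
    linarith
  have h3 : p ∣ 2 ^ m := by exact_mod_cast h2
  exact hp2 ((Nat.prime_dvd_prime_iff_eq hp Nat.prime_two).1 (hp.dvd_of_dvd_pow h3))

theorem irr_gen {K : Type*} [Field K] {a : K} {m n : ℕ} (hm0 : 0 < m)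
    (hm : Irreducible (X ^ m - C a)) (hn : Odd n)
    (h : ∀ p : ℕ, p.Prime → p ∣ n → ∀ b : K, b ^ p ≠ (-1) ^ m * (-a)) :
    Irreducible (X ^ (n * m) - C a) := by
  refine X_pow_mul_sub_C_irreducible hm ?_
  intro E _ _ x hx
  have hint : IsIntegral K x := not_not.mp fun h ↦ by
    simpa only [degree_zero, degree_X_pow_sub_C hm0,
      WithBot.natCast_ne_bot] using congr_arg degree (hx.symm.trans (dif_neg h))
  apply X_pow_sub_C_irreducible_of_odd hn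
  intro p hp hpq b hb
  refine h p hp hpq (Algebra.norm K b) ?_
  rw [← map_pow, hb, ← adjoin.powerBasis_gen hint,
    Algebra.PowerBasis.norm_gen_eq_coeff_zero_minpoly]
  simp [minpoly_gen, hx, hm0.ne]

theorem irr_core (m q : ℕ) (hq : 0 < q) (hqm : q < 2 ^ m) :
    Irreducible (X ^ q - C (-((1 / 2 : ℚ) ^ (2 ^ m))) : ℚ[X]) := by
  obtain ⟨j, q', hq', rfl⟩ := Nat.exists_eq_two_pow_mul_odd hq.ne'
  have hj : j < m := by
    by_contra hcon
    push Not at hcon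
    have h1 : 2 ^ m ≤ 2 ^ j := Nat.pow_le_pow_right (by norm_num) hcon
    have h2 : 1 ≤ q' := hq'.pos
    nlinarith
  have hc : ((1 / 2 : ℚ) ^ (2 ^ m)) = ((1 / 2 : ℚ) ^ (2 ^ (m - j))) ^ (2 ^ j) := by
    rw [← pow_mul, ← pow_add]
    congr 2
    omega
  rw [mul_comm]
  have hm : Irreducible (X ^ (2 ^ j) - C (-((1 / 2 : ℚ) ^ (2 ^ m))) : ℚ[X]) := by
    rw [hc]
    exact irr_two_pow j _ (by positivity)
  refine irr_gen (by positivity) hm hq' ?_
  intro p hp hpq b hb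
  have hp2 : p ≠ 2 := by
    rintro rfl
    have := hq'.of_dvd_nat hpq
    exact absurd this (by decide)
  refine no_pth_root m p hp hp2 b ?_
  rw [hb]
  rcases neg_one_pow_eq_or ℚ (2 ^ j) with h | h
  · left; rw [h]; ring
  · right; rw [h]; ring

/-- `2 ^ (2 ^ m) X ^ q + 1` is irreducible over `ℚ` for `0 < q < 2 ^ m`. -/
theorem irr (m q : ℕ) (hq : 0 < q) (hqm : q < 2 ^ m) :
    Irreducible (C ((2 : ℚ) ^ (2 ^ m)) * X ^ q + 1 : ℚ[X]) := by
  have h := irr_core m q hq hqm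
  have e : (C ((2 : ℚ) ^ (2 ^ m)) * X ^ q + 1 : ℚ[X])
      = C ((2 : ℚ) ^ (2 ^ m)) * (X ^ q - C (-((1 / 2 : ℚ) ^ (2 ^ m)))) := by
    rw [mul_sub, ← C_mul]
    have : (2 : ℚ) ^ 2 ^ m * -((1 / 2 : ℚ) ^ 2 ^ m) = -1 := by
      rw [mul_neg, ← mul_pow]; norm_num
    rw [this]
    simp
  rw [e]
  have hu : IsUnit (C ((2 : ℚ) ^ (2 ^ m)) : ℚ[X]) := by
    rw [isUnit_C]
    exact isUnit_iff_ne_zero.2 (by positivity)
  exact (irreducible_isUnit_mul hu).2 h

end Pool.Agent.N449.SF
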