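import Pool.Agent.N449.SF.Irr
import Pool.Agent.N449.SF.Core

/-!
# Sparse factors of Fermat numbers
-/

set_option autoImplicit false
set_option maxHeartbeats 4000000

namespace Pool.Agent.N449.SF

open Finset Polynomial

theorem zero_mem_of_odd (d : ℤ) (hd : ¬ (2 : ℤ) ∣ d) (S : Finset ℕ) (u : ℕ → ℤ)
    (hS : d = ∑ i ∈ S, u i * 2 ^ i) : 0 ∈ S := by
  by_contra h0
  apply hd
  rw [hS]
  refine Finset.dvd_sum fun i hi => ?_
  have : i ≠ 0 := fun h => h0 (h ▸ hi)
  exact Dvd.dvd.mul_left (dvd_pow_self 2 this) _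

/-- The polynomial identity contradicts the irreducibility. -/
theorem poly_contra (m q : ℕ) (hq : 0 < q) (hqm : q < 2 ^ m) (d e : ℤ)
    (h : d * e = 2 ^ (2 ^ m) + 1) (hd : 1 < |d|) (he : 1 < |e|) (D E : ℤ[X])
    (hDE : D * E = C ((2 : ℤ) ^ (2 ^ m)) * X ^ q + 1) (hD : D.eval 1 = d) : False := by
  have hirr := irr m q hq hqm
  have hmap : (D.map (Int.castRingHom ℚ)) * (E.map (Int.castRingHom ℚ))
      = C ((2 : ℚ) ^ (2 ^ m)) * X ^ q + 1 := by
    rw [← Polynomial.map_mul, hDE, Polynomial.map_add, Polynomial.map_mul, Polynomial.map_C,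
      Polynomial.map_pow, Polynomial.map_X, Polynomial.map_one]
    norm_num
  rw [← hmap] at hirr
  have h0 : D.eval 0 * E.eval 0 = 1 := by
    rw [← eval_mul, hDE]
    simp [hq.ne']
  have h1 : D.eval 1 * E.eval 1 = 2 ^ (2 ^ m) + 1 := by
    rw [← eval_mul, hDE]
    simp
  have hinj : Function.Injective (Int.castRingHom ℚ) := Int.cast_injective
  have key : ∀ G : ℤ[X], IsUnit (G.map (Int.castRingHom ℚ)) → G.eval 1 = G.eval 0 := by
    intro G hG
    have hdeg := natDegree_eq_zero_of_isUnit hG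
    rw [natDegree_map_eq_of_injective hinj] at hdeg
    rw [eq_C_of_natDegree_eq_zero hdeg]
    simp
  have hne : (d : ℤ) ≠ 0 := by
    rintro rfl
    simp at hd
  rcases hirr.isUnit_or_isUnit rfl with hu | hu
  · have h2 := key D hu
    have h3 : IsUnit (D.eval 0) := IsUnit.of_mul_eq_one _ h0
    rw [← h2, hD] at h3
    rw [Int.isUnit_iff_abs_eq.1 h3] at hd
    exact lt_irrefl _ hd
  · have h2 := key E hu
    have h3 : IsUnit (E.eval 0) := IsUnit.of_mul_eq_one _ (by rw [mul_comm]; exact h0)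
    rw [← h2] at h3
    rw [hD, ← h] at h1
    have h4 : E.eval 1 = e := mul_left_cancel₀ hne h1
    rw [h4] at h3
    rw [Int.isUnit_iff_abs_eq.1 h3] at he
    exact lt_irrefl _ he

theorem main (m : ℕ) (d e : ℤ) (h : d * e = 2 ^ (2 ^ m) + 1) (hd : 1 < |d|) (he : 1 < |e|)
    (S T : Finset ℕ) (u v : ℕ → ℤ) (hS : d = ∑ i ∈ S, u i * 2 ^ i)
    (hT : e = ∑ j ∈ T, v j * 2 ^ j) :
    (2 : ℤ) ^ (2 ^ m)
      ≤ (2 + (∑ i ∈ S, |u i|) * (∑ j ∈ T, |v j|)) ^ (4 * T.card * (8 * T.card) ^ (S.card - 1)) := by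
  classical
  by_contra hcon
  push Not at hcon
  set n : ℕ := 2 ^ m with hn
  have hn0 : 0 < n := by positivity
  have hodd : ¬ (2 : ℤ) ∣ 2 ^ n + 1 := by
    intro h2
    have h3 : (2 : ℤ) ∣ 2 ^ n := dvd_pow_self 2 hn0.ne'
    have := (Int.dvd_add_right h3).1 h2
    norm_num at this
  have h0S : 0 ∈ S := zero_mem_of_odd d (fun h2 => hodd (h ▸ Dvd.dvd.mul_right h2 e)) S u hS
  have h0T : 0 ∈ T := zero_mem_of_odd e (fun h2 => hodd (h ▸ Dvd.dvd.mul_left h2 d)) T v hT
  set t : ℕ := T.card with ht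
  have ht0 : 0 < t := Finset.card_pos.2 ⟨0, h0T⟩
  set A : ℤ := ∑ i ∈ S, |u i| with hA
  set B : ℤ := ∑ j ∈ T, |v j| with hB
  have hA0 : 0 ≤ A := Finset.sum_nonneg fun _ _ => abs_nonneg _
  have hB0 : 0 ≤ B := Finset.sum_nonneg fun _ _ => abs_nonneg _
  have hAB : 0 ≤ A * B := mul_nonneg hA0 hB0
  -- approximation
  obtain ⟨q, hq1, hqQ, hq⟩ := dirichlet n (8 * t) hn0 (by omega) S h0S
  have hq' : ∀ i : ℕ, ∃ α : ℤ, i ∈ S → ((8 * t : ℕ) : ℤ) * |(q : ℤ) * i - α * n| < n := by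
    intro i
    by_cases hi : i ∈ S
    · obtain ⟨α, hα⟩ := hq i hi
      exact ⟨α, fun _ => hα⟩
    · exact ⟨0, fun h => absurd h hi⟩
  choose α hα using hq'
  have hβ' : ∀ j : ℕ, ∃ β : ℤ, 2 * |(q : ℤ) * j - β * n| ≤ n := by
    intro j
    refine ⟨(2 * (q * j) + n) / (2 * n), ?_⟩
    have hpos : (0 : ℤ) < 2 * n := by positivity
    have e1 := Int.emod_add_mul_ediv (2 * ((q : ℤ) * j) + n) (2 * n)
    have e2 := Int.emod_nonneg (2 * ((q : ℤ) * j) + n) hpos.ne'
    have e3 := Int.emod_lt_of_pos (2 * ((q : ℤ) * j) + n) hpos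
    set z := (2 * ((q : ℤ) * j) + n) / (2 * n)
    rw [← abs_of_pos (by norm_num : (0 : ℤ) < 2), ← abs_mul, abs_le]
    constructor <;> nlinarith
  choose β₀ hβ₀ using hβ'
  -- normalise at zero
  set β : ℕ → ℤ := fun j => if j = 0 then 0 else β₀ j with hβdef
  have hβ : ∀ j, 2 * |(q : ℤ) * j - β j * n| ≤ n := by
    intro j
    by_cases hj : j = 0
    · subst hj; simp [hβdef]
    · simpa [hβdef, hj] using hβ₀ j
  set y : ℕ → ℤ := fun j => |(q : ℤ) * j - β j * n| with hy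
  have hy0 : y 0 = 0 := by simp [hy, hβdef]
  obtain ⟨k, hkt, hk⟩ := threshold n t T rfl h0T y hy0
  set T' : Finset ℕ := T.filter (fun j => 2 * t * y j ≤ k * n) with hT'
  set P : ℤ := 8 * t * n with hP
  set Cc : ℤ := 4 * k * n + 2 * n with hCc
  have hnZ : (0 : ℤ) < n := by exact_mod_cast hn0
  have htZ : (0 : ℤ) < t := by exact_mod_cast ht0
  have hkZ : (0 : ℤ) ≤ k := by positivity
  have hkt' : (k : ℤ) + 1 ≤ t := by exact_mod_cast hkt
  have hC2 : 2 * (n : ℤ) ≤ Cc := by rw [hCc]; nlinarith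
  have hPC : 2 * Cc + 4 * n ≤ P := by rw [hCc, hP]; nlinarith
  have hPpos : 0 < P := by rw [hP]; positivity
  have hTm : ∀ j, j ∈ T' ↔ j ∈ T ∧ 2 * t * y j ≤ k * n := fun j => by rw [hT', Finset.mem_filter]
  have hyj : ∀ j, y j = |(q : ℤ) * j - β j * n| := fun j => rfl
  clear_value y T' P Cc A B t
  -- the family of terms
  obtain ⟨I, hI⟩ : ∃ I : Finset ((ℕ × ℕ) ⊕ Bool), I = (S ×ˢ T).disjSum Finset.univ := ⟨_, rfl⟩
  obtain ⟨x, hx1, hx2, hx3⟩ : ∃ x : (ℕ × ℕ) ⊕ Bool → ℕ, (∀ i j, x (Sum.inl (i, j)) = i + j) ∧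
      x (Sum.inr false) = 0 ∧ x (Sum.inr true) = n :=
    ⟨Sum.elim (fun ij => ij.1 + ij.2) (fun b => if b then n else 0), fun _ _ => rfl, rfl, rfl⟩
  obtain ⟨c, hc1, hc2⟩ : ∃ c : (ℕ × ℕ) ⊕ Bool → ℤ, (∀ i j, c (Sum.inl (i, j)) = u i * v j) ∧
      ∀ b, c (Sum.inr b) = -1 :=
    ⟨Sum.elim (fun ij => u ij.1 * v ij.2) (fun _ => -1), fun _ _ => rfl, fun _ => rfl⟩
  obtain ⟨ℓ, hℓ⟩ : ∃ ℓ : (ℕ × ℕ) ⊕ Bool → ℤ, ∀ a, ℓ a = lab Cc P (8 * t * q * x a) :=
    ⟨fun a => lab Cc P (8 * t * q * x a), fun _ => rfl⟩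
  -- structure of the terms
  have hnearT : ∀ i ∈ S, ∀ j ∈ T', ℓ (Sum.inl (i, j)) = 2 * (α i + β j) - 1 ∧
      Far n Cc P (8 * t * q * x (Sum.inl (i, j))) := by
    intro i hi j hj
    have h1 := hα i hi
    have h2 := ((hTm j).1 hj).2
    have e1 : (8 * t * q * x (Sum.inl (i, j)) : ℤ)
        = (α i + β j) * P + (8 * t * (q * i - α i * n) + 8 * t * (q * j - β j * n)) := by
      rw [hx1, hP]
      push_cast
      ring
    rw [hℓ, e1]
    apply near _ _ _ _ _ hnZ hC2 hPC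
    have h3 : |8 * (t : ℤ) * (q * i - α i * n)| < n := by
      rw [abs_mul, abs_of_pos (by positivity : (0 : ℤ) < 8 * t)]
      push_cast at h1
      exact h1
    have h4 : |8 * (t : ℤ) * (q * j - β j * n)| ≤ 4 * k * n := by
      rw [abs_mul, abs_of_pos (by positivity : (0 : ℤ) < 8 * t)]
      rw [hyj] at h2
      linarith
    calc _ ≤ |8 * (t : ℤ) * (q * i - α i * n)| + |8 * (t : ℤ) * (q * j - β j * n)| := abs_add_le _ _
      _ < Cc - n := by rw [hCc]; linarith
  have hawayT : ∀ i ∈ S, ∀ j ∈ T, j ∉ T' → (∃ γ' : ℤ, ℓ (Sum.inl (i, j)) = 2 * γ') ∧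
      Far n Cc P (8 * t * q * x (Sum.inl (i, j))) := by
    intro i hi j hj hj'
    have h1 := hα i hi
    have h2 : (k : ℤ) * n < 2 * t * y j := by
      by_contra hcc
      exact hj' ((hTm j).2 ⟨hj, not_lt.1 hcc⟩)
    have h3 : ((k : ℤ) + 1) * n < 2 * t * y j := by
      by_contra hcc
      exact hk j hj ⟨h2, not_lt.1 hcc⟩
    have e1 : (8 * t * q * x (Sum.inl (i, j)) : ℤ)
        = (α i + β j) * P + (8 * t * (q * i - α i * n) + 8 * t * (q * j - β j * n)) := by
      rw [hx1, hP]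
      push_cast
      ring
    rw [hℓ, e1]
    have h4 : |8 * (t : ℤ) * (q * i - α i * n)| < n := by
      rw [abs_mul, abs_of_pos (by positivity : (0 : ℤ) < 8 * t)]
      push_cast at h1
      exact h1
    have h5 : |8 * (t : ℤ) * (q * j - β j * n)| = 4 * (2 * t * y j) := by
      rw [abs_mul, abs_of_pos (by positivity : (0 : ℤ) < 8 * t)]
      rw [hyj]
      ring
    have h6 : 2 * y j ≤ n := by rw [hyj]; exact hβ j
    apply away _ _ _ _ _ hnZ hC2 hPC
    · have := abs_sub_abs_le_abs_sub (8 * (t : ℤ) * (q * j - β j * n))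
        (-(8 * (t : ℤ) * (q * i - α i * n)))
      rw [abs_neg, sub_neg_eq_add, add_comm (8 * (t : ℤ) * (q * j - β j * n))] at this
      rw [h5] at this
      rw [hCc]
      linarith
    · have := abs_add_le (8 * (t : ℤ) * (q * i - α i * n)) (8 * (t : ℤ) * (q * j - β j * n))
      rw [h5] at this
      have h7 : (t : ℤ) * (2 * y j) ≤ t * n := mul_le_mul_of_nonneg_left h6 htZ.le
      rw [hP]
      linarith
  have hfalse : ℓ (Sum.inr false) = 2 * 0 - 1 ∧ Far n Cc P (8 * t * q * x (Sum.inr false)) := by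
    have e1 : (8 * t * q * x (Sum.inr false) : ℤ) = 0 * P + 0 := by rw [hx2]; push_cast; ring
    rw [hℓ, e1]
    apply near _ _ _ _ _ hnZ hC2 hPC
    simp; linarith
  have htrue : ℓ (Sum.inr true) = 2 * q - 1 ∧ Far n Cc P (8 * t * q * x (Sum.inr true)) := by
    have e1 : (8 * t * q * x (Sum.inr true) : ℤ) = q * P + 0 := by rw [hx3, hP]; ring
    rw [hℓ, e1]
    apply near _ _ _ _ _ hnZ hC2 hPC
    simp; linarith
  have hfar : ∀ a ∈ I, Far n Cc P (8 * t * q * x a) := by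
    intro a ha
    rcases a with ⟨i, j⟩ | b
    · have hij : i ∈ S ∧ j ∈ T := by
        simpa [hI] using ha
      by_cases hj : j ∈ T'
      · exact (hnearT i hij.1 j hj).2
      · exact (hawayT i hij.1 j hij.2 hj).2
    · cases b
      · exact hfalse.2
      · exact htrue.2
  have hsumc : ∑ a ∈ I, |c a| = 2 + A * B := by
    rw [hI, Finset.sum_disjSum, Finset.sum_product, hA, hB, Finset.sum_mul_sum]
    simp only [hc1, hc2, abs_mul]
    simp
    ring
  have hsum : ∑ a ∈ I, c a * 2 ^ x a = 0 := by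
    rw [hI, Finset.sum_disjSum, Finset.sum_product]
    simp only [hc1, hx1]
    have : ∑ i ∈ S, ∑ j ∈ T, u i * v j * 2 ^ (i + j) = d * e := by
      rw [hS, hT, Finset.sum_mul_sum]
      refine Finset.sum_congr rfl fun i _ => Finset.sum_congr rfl fun j _ => ?_
      rw [pow_add]; ring
    rw [this, h]
    simp [hc2, hx2, hx3]
  have hgap : ∀ a ∈ I, ∀ b ∈ I, ℓ a < ℓ b → (∑ a ∈ I, |c a|) * 2 ^ x a < 2 ^ x b := by
    intro a ha b hb hab
    rw [hℓ, hℓ] at hab
    have h1 := gap n Cc P _ _ hPpos (hfar a ha) (hfar b hb) hab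
    rw [hsumc]
    have h2 : (n : ℤ) ≤ 4 * t * q * ((x b : ℤ) - x a) := by nlinarith
    have h3 : x a < x b := by
      by_contra hcc
      have h4 : ((x b : ℤ) - x a) ≤ 0 := by
        have := not_lt.1 hcc
        have : (x b : ℤ) ≤ x a := by exact_mod_cast this
        linarith
      have h5 : 4 * (t : ℤ) * q * ((x b : ℤ) - x a) ≤ 0 :=
        mul_nonpos_of_nonneg_of_nonpos (by positivity) h4
      linarith
    obtain ⟨g, hg⟩ := Nat.exists_eq_add_of_lt h3
    have hg' : x b = x a + (g + 1) := by omega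
    rw [hg', pow_add, mul_comm]
    refine mul_lt_mul_of_pos_left ?_ (by positivity)
    by_contra hcc
    push Not at hcc
    have h6 : n ≤ (g + 1) * (4 * t * q) := by
      have : ((x b : ℤ) - x a) = (g + 1 : ℕ) := by rw [hg']; push_cast; ring
      rw [this] at h2
      have h2' : (n : ℤ) ≤ ((g + 1) * (4 * t * q) : ℕ) := by
        push_cast
        push_cast at h2
        linarith
      exact_mod_cast h2'
    have h7 : (2 : ℤ) ^ n ≤ (2 + A * B) ^ (4 * t * q) := by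
      calc (2 : ℤ) ^ n ≤ 2 ^ ((g + 1) * (4 * t * q)) := pow_le_pow_right₀ (by norm_num) h6
        _ = (2 ^ (g + 1)) ^ (4 * t * q) := by rw [pow_mul]
        _ ≤ (2 + A * B) ^ (4 * t * q) := pow_le_pow_left₀ (by positivity) hcc _
    have h8 : (2 + A * B) ^ (4 * t * q) ≤ (2 + A * B) ^ (4 * t * (8 * t) ^ (S.card - 1)) := by
      apply pow_le_pow_right₀ (by linarith)
      exact Nat.mul_le_mul_left _ hqQ
    exact absurd (lt_of_le_of_lt (h7.trans h8) hcon) (lt_irrefl _)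
  -- non-negativity of the exponents
  have hαnn : ∀ i ∈ S, 0 ≤ α i := by
    intro i hi
    by_contra hcc
    push Not at hcc
    have h1 := hα i hi
    have h2 : (n : ℤ) ≤ q * i - α i * n := by
      have : (0 : ℤ) ≤ (q : ℤ) * i := by positivity
      nlinarith
    have h3 : (n : ℤ) ≤ |(q : ℤ) * i - α i * n| := h2.trans (le_abs_self _)
    have h4 : (1 : ℤ) ≤ ((8 * t : ℕ) : ℤ) := by exact_mod_cast (by omega : 1 ≤ 8 * t)
    nlinarith [abs_nonneg ((q : ℤ) * i - α i * n)]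
  have hβnn : ∀ j, 0 ≤ β j := by
    intro j
    by_contra hcc
    push Not at hcc
    have h1 := hβ j
    have h2 : (n : ℤ) ≤ q * j - β j * n := by
      have : (0 : ℤ) ≤ (q : ℤ) * j := by positivity
      nlinarith
    have h3 : (n : ℤ) ≤ |(q : ℤ) * j - β j * n| := h2.trans (le_abs_self _)
    linarith
  -- the polynomials
  set D : ℤ[X] := ∑ i ∈ S, C (u i * 2 ^ i) * X ^ (α i).toNat with hD
  set E : ℤ[X] := ∑ j ∈ T', C (v j * 2 ^ j) * X ^ (β j).toNat with hE
  have hDE : D * E = C ((2 : ℤ) ^ n) * X ^ q + 1 := by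
    ext γ
    have hb := block I x c ℓ hsum hgap (2 * γ - 1)
    rw [Finset.sum_filter, hI, Finset.sum_disjSum] at hb
    simp only [Fintype.univ_bool, Finset.sum_insert, Finset.mem_singleton, Bool.true_eq_false,
      not_false_eq_true, Finset.sum_singleton] at hb
    rw [hfalse.1, htrue.1] at hb
    have e1 : (D * E).coeff γ = ∑ a ∈ S ×ˢ T,
        (if ℓ (Sum.inl a) = 2 * (γ : ℤ) - 1 then c (Sum.inl a) * 2 ^ x (Sum.inl a) else 0) := by
      rw [hD, hE, Finset.sum_mul_sum, Finset.sum_product, Polynomial.finsetSum_coeff]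
      refine Finset.sum_congr rfl fun i hi => ?_
      rw [Polynomial.finsetSum_coeff, hT', Finset.sum_filter]
      refine Finset.sum_congr rfl fun j hj => ?_
      have e2 : (C (u i * 2 ^ i) * X ^ (α i).toNat * (C (v j * 2 ^ j) * X ^ (β j).toNat) : ℤ[X])
          = C (u i * v j * 2 ^ (i + j)) * X ^ ((α i).toNat + (β j).toNat) := by
        rw [pow_add, pow_add]
        simp only [C_mul]
        ring
      rw [e2, coeff_C_mul_X_pow]
      have e3 : (γ = (α i).toNat + (β j).toNat) ↔ (α i + β j = γ) := by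
        have := Int.toNat_of_nonneg (hαnn i hi)
        have := Int.toNat_of_nonneg (hβnn j)
        omega
      by_cases hjT : 2 * t * y j ≤ k * n
      · have hj' : j ∈ T' := (hTm j).2 ⟨hj, hjT⟩
        rw [if_pos hjT, (hnearT i hi j hj').1]
        have e4 : (2 * (α i + β j) - 1 = 2 * (γ : ℤ) - 1) ↔ (α i + β j = γ) := by
          constructor <;> intro h <;> linarith
        by_cases hh : α i + β j = γ
        · rw [if_pos (e3.2 hh), if_pos (e4.2 hh)]
          rw [hc1, hx1]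
        · rw [if_neg (fun h => hh (e3.1 h)), if_neg (fun h => hh (e4.1 h))]
      · have hj' : j ∉ T' := fun h => hjT ((hTm j).1 h).2
        rw [if_neg hjT]
        obtain ⟨γ', hγ'⟩ := (hawayT i hi j hj hj').1
        rw [hγ', if_neg]
        omega
    rw [e1]
    have e5 : ∀ z : ℤ, z + ((if 2 * (q : ℤ) - 1 = 2 * (γ : ℤ) - 1 then
        c (Sum.inr true) * 2 ^ x (Sum.inr true) else 0) + (if 2 * 0 - 1 = 2 * (γ : ℤ) - 1 then
        c (Sum.inr false) * 2 ^ x (Sum.inr false) else 0)) = 0 →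
        z = (C ((2 : ℤ) ^ n) * X ^ q + 1 : ℤ[X]).coeff γ := by
      intro z hz
      rw [coeff_add, coeff_C_mul_X_pow, coeff_one]
      have e6 : (2 * (q : ℤ) - 1 = 2 * (γ : ℤ) - 1) ↔ γ = q := by omega
      have e7 : (2 * 0 - 1 = 2 * (γ : ℤ) - 1) ↔ γ = 0 := by omega
      simp only [e6, e7, hc2, hx2, hx3] at hz
      by_cases g1 : γ = q
      · by_cases g2 : γ = 0
        · omega
        · simp [g1] at hz ⊢
          have : q ≠ 0 := by omega
          simp [this] at hz ⊢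
          linarith
      · by_cases g2 : γ = 0
        · subst g2
          have : ¬ (0 = q) := g1
          simp [this] at hz ⊢
          linarith
        · simp [g1, g2] at hz ⊢
          linarith
    exact e5 _ (by simpa using hb)
  have hDe : D.eval 1 = d := by
    rw [hD, hS, Polynomial.eval_finsetSum]
    simp
  -- q < n
  have hqn : q < 2 ^ m := by
    rw [← hn]
    by_contra hcc
    push Not at hcc
    have h1 : n ≤ 4 * t * (8 * t) ^ (S.card - 1) := by
      have h2 : (8 * t) ^ (S.card - 1) ≤ 4 * t * (8 * t) ^ (S.card - 1) :=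
        Nat.le_mul_of_pos_left _ (by omega)
      omega
    have h3 : (2 : ℤ) ^ n ≤ (2 + A * B) ^ (4 * t * (8 * t) ^ (S.card - 1)) :=
      calc (2 : ℤ) ^ n ≤ 2 ^ (4 * t * (8 * t) ^ (S.card - 1)) := pow_le_pow_right₀ (by norm_num) h1
        _ ≤ (2 + A * B) ^ (4 * t * (8 * t) ^ (S.card - 1)) :=
          pow_le_pow_left₀ (by norm_num) (by linarith) _
    exact absurd (lt_of_le_of_lt h3 hcon) (lt_irrefl _)
  exact poly_contra m q (by omega) hqn d e h hd he D E hDE hDe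

end Pool.Agent.N449.SF
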